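import Pool.Agent.Q45.SN.Main

/-! Sums of reciprocal supernorms over the partitions of size `n`. -/

set_option autoImplicit false

open Filter Topology

namespace Pool.Agent.Results.MP_c6faf2_co.SupernormLimit

/-- The supernorm `∏ p_{λ_i}` of a partition; `Nat.nth Nat.Prime (k - 1)` is the `k`-th prime. -/
noncomputable def supernorm {n : ℕ} (l : n.Partition) : ℕ :=
  (l.parts.map fun k => Nat.nth Nat.Prime (k - 1)).prod

/-- The sum of the reciprocal supernorms over all partitions of size exactly `n`. -/
noncomputable def Wsize (n : ℕ) : ℝ := ∑ l : n.Partition, 1 / (supernorm l : ℝ)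

/-- `n · Ŵ_size(n) → e^γ`. -/
theorem result : Tendsto (fun n : ℕ => (n : ℝ) * Wsize n) atTop
    (𝓝 (Real.exp Real.eulerMascheroniConstant)) := by
  refine Pool.Agent.Q45.SN.main.congr fun n => ?_
  congr 1
  unfold Pool.Agent.Q45.SN.W Wsize
  have h1 : Pool.Agent.Q45.SN.P n n = Finset.univ := by
    refine Finset.eq_univ_iff_forall.mpr fun l => ?_
    rw [Pool.Agent.Q45.SN.mem_P]
    exact fun i hi => l.le_of_mem_parts hi
  rw [h1]
  refine Finset.sum_congr rfl fun l _ => ?_
  unfold Pool.Agent.Q45.SN.wt supernorm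
  rw [Nat.cast_multiset_prod, Multiset.map_map, one_div, ← Multiset.prod_map_inv']
  rw [Multiset.map_map]
  rfl

end Pool.Agent.Results.MP_c6faf2_co.SupernormLimit
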